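import Pool.Agent.Lib.MP_696deb_nt.CU.S0
import Pool.Agent.Lib.MP_696deb_nt.CU.E5
import Pool.Agent.Lib.MP_696deb_nt.CW.Box

/-! Selmer patterns, relaxed lifts, fibres, colours and cubes: the definitions. -/

set_option autoImplicit false

open scoped Classical
open Finset

namespace Pool.Agent.Lib.MP_696deb_nt.CU.Cw

theorem dvd_sq {q m : ℕ} (hq : q.Prime) : q ∣ 3 * m ^ 2 ↔ q ∣ 3 * m := by
  rw [hq.dvd_mul, hq.dvd_mul, hq.prime.dvd_pow_iff_dvd two_ne_zero]

theorem kk_two (m : ℕ) (g : Gam) : kk (m ^ 2) g = -kk m g := by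
  rw [kk_pow]
  generalize kk m g = t
  revert t
  decide

theorem e5_two' {n e q : ℕ} {u : Gam → F3} (h : Loc n e q (kC u)) (hq : q.Prime) (h3 : q ≠ 3)
    (hn : kk n (sq q) ≠ 0) :
    ∃ a b : F3, ∀ g ∈ Gq q, kT (u g) = cob (act n e) (b.val • T3 + kT a) g := by
  obtain ⟨P, h1, h2⟩ := h.tors (l := 1) hq h3 hn fun g _ => by
    rw [pow_one, th_kT]
  rw [pow_succ, pow_one, mul_smul] at h1
  obtain ⟨b, hb⟩ := exists_kT h1
  obtain ⟨a, ha⟩ := exists_kT (P := P - b.val • T3) (by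
    rw [smul_sub, hb, smul_comm]
    exact sub_self _)
  exact ⟨a, b, fun g hg => by rw [← ha, add_sub_cancel, ← h2 g hg]⟩

theorem f1_one {n q : ℕ} {k : Gam → F3} (hq : q.Prime) (h3 : q ≠ 3) (hn : kk n (sq q) = 1)
    (hk : Kc 1 (Gq q) k) :
    Loc (n ^ 2) 1 q (kC k) ↔ q % 3 = 2 ∨ k (fq q) = k (sq q) * kk n (fq q) := by
  have hs := chi_ine hq h3 (sq_ine hq h3)
  constructor
  · intro h
    obtain ⟨a, b, h1⟩ := e5_two' h hq h3 (by rw [kk_two, hn]; decide)
    refine or_iff_not_imp_left.2 fun h2 => ?_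
    have h4 : q % 3 = 1 := by
      have : ¬ 3 ∣ q := fun e => h3 ((Nat.prime_dvd_prime_iff_eq Nat.prime_three hq).1 e).symm
      omega
    rw [kT_inj ((h1 _ (fq_mem hq)).trans (e5_cob _ a b _)),
      kT_inj ((h1 _ (sq_mem hq h3)).trans (e5_cob _ a b _)), chi_Gq hq h4 (fq_mem hq), hs, kk_two,
      kk_two, hn]
    ring
  · intro h
    obtain ⟨a, ha⟩ : ∃ a, k (fq q) = k (sq q) * kk n (fq q) + a * (chi (fq q) - 1) := by
      rcases h with h | h
      · refine ⟨k (fq q) - k (sq q) * kk n (fq q), ?_⟩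
        rw [chi_fq hq h3, ← ZMod.natCast_mod q 3, h]
        push_cast
        ring
      · exact ⟨0, by rw [zero_mul, add_zero, h]⟩
    refine ⟨(k (sq q)).val • T3 + kT a, fun g hg => ?_⟩
    rw [e5_cob, kk_two, neg_mul_neg]
    refine congrArg kT (sub_eq_zero.1 ?_)
    refine (hk.sub (((kc_kk n _).smul (k (sq q))).add ((kc_chi _).smul a))).det hq h3 ?_
      (sub_eq_zero.2 ha) hg
    simp only [Pi.sub_apply, Pi.add_apply, hs, hn]
    ring

theorem f1_zero {n q : ℕ} {u : Gam → F3} {g : Gam} (hq : q.Prime) (h3 : q ≠ 3)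
    (hn : kk n (sq q) = 1) (h : Loc (n ^ 2) 0 q (kC u)) (hg : g ∈ Gq q) :
    u g = u (sq q) * kk n g := by
  obtain ⟨a, b, h1⟩ := e5_two' h hq h3 (by rw [kk_two, hn]; decide)
  have h2 : ∀ g ∈ Gq q, chi g = 1 → u g = b * kk n g := fun g hg e => kT_inj (by
    rw [h1 g hg, H3.cob, e5_act _ 0 1 e, ← H3.cob, e5_cob, e, sub_self, mul_zero, add_zero, kk_two,
      neg_mul_neg])
  rw [h2 _ (sq_mem hq h3) (chi_ine hq h3 (sq_ine hq h3)), hn, mul_one]
  refine (chi_cases g).elim (h2 g hg) fun e => ?_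
  have h4 := congrArg (th • ·) (h1 g hg)
  simp only [th_kT, ← cob_th, smul_add, add_zero] at h4
  rw [smul_comm, show b.val • th • T3 = kT b from rfl, cob_kT, e, eq_comm,
    map_eq_zero_iff _ kT_inj] at h4
  have h5 : ∀ b : F3, b * ((-1) ^ (0 + 1) - 1) = 0 → b = 0 := by decide
  obtain rfl := h5 b h4
  refine kT_inj ?_
  rw [h1 g hg, ZMod.val_zero, zero_nsmul, zero_add, cob_kT, pow_zero, sub_self, mul_zero, zero_mul]

namespace Bx

variable (B : Bx)

/-- The Kummer cocycle of a pattern. -/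
noncomputable def kA (x : B.Pt) : B.Pat →+ (Gam → F3) :=
  AddMonoidHom.mk' (fun a => ∑ q : B.S0, a.1 q • kk q + ∑ j, a.2 j • kk (x j)) fun a b => by
    simp only [Prod.fst_add, Prod.snd_add, Pi.add_apply, add_smul, sum_add_distrib]
    abel

/-- The Selmer patterns. -/
noncomputable def V (x : B.Pt) : AddSubgroup B.Pat := (Zs (B.nn x) 1 1).comap (kM.comp (B.kA x))

/-- The same set as a `Finset`. -/
noncomputable def VF (x : B.Pt) : Finset B.Pat := univ.filter (· ∈ B.V x)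

/-- The multiples of the pattern of the twist. -/
noncomputable def L1 : AddSubgroup B.Pat := AddSubgroup.zmultiples B.tau

/-- The span of `a` and the pattern of the twist. -/
noncomputable def L2 (a : B.Pat) : AddSubgroup B.Pat := AddSubgroup.closure {a, B.tau}

/-- The Selmer cocycles of level `l` on the side zero with top digit `a`. -/
noncomputable def Om (x : B.Pt) (l : ℕ) (a : B.Pat) : Finset (Gam → A) :=
  fs {c | c ∈ Zs (B.nn x) 0 l ∧ th ^ (l - 1) • c = kC (B.kA x a)}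

/-- The relaxed lifts of level `l` with top digit `a`. -/
noncomputable def RF (x : B.Pt) (l : ℕ) (a : B.Pat) : Finset (Gam → A) :=
  fs {c | RL (B.nn x) l c ∧ th ^ (l - 1) • c = kC (B.kA x a)}

/-- The number of lifts. -/
noncomputable def wB : ℕ := (WW B.N0).ncard * 3 ^ B.J.card

/-- The pairing of a lift and a pattern. -/
noncomputable def Dx (x : B.Pt) (c : Gam → A) (b : B.Pat) : F3 := Dl (B.nn x) c (B.kA x b)

/-- The pairing on the Selmer patterns. -/
noncomputable def CT (x : B.Pt) (a b : B.Pat) : F3 := DD (B.nn x) (kC (B.kA x a)) (B.kA x b)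

/-- The radical. -/
def Rad (x : B.Pt) : Set B.Pat := {a | a ∈ B.V x ∧ ∀ b ∈ B.V x, B.CT x a b = 0}

/-- The type of the level one data. -/
abbrev Lv := (Fin B.r → B.S0 → Gam → F3) × (Fin B.r → B.S0 → F3) × (Fin B.r → Fin B.r → F3 × F3)

/-- The level one data of a point. -/
noncomputable def lv (x : B.Pt) : B.Lv :=
  (fun j q => H3.rs (Gq q) (kk (x j)), fun j q => kk q (fq (x j)),
    fun i j => (kk (x i) (fq (x j)), uq (x i) (fq (x j))))

/-- The level one data with the matrix of the pairing. -/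
noncomputable def key (x : B.Pt) : B.Lv × (B.Pat → B.Pat → F3) :=
  (B.lv x, fun a b => if a ∈ B.V x ∧ b ∈ B.V x then B.CT x a b else 0)

/-- No Selmer pattern vanishes at all upper indices. -/
def G0 (x : B.Pt) : Prop := ∀ a ∈ B.V x, (∀ j ∈ B.Up, a.2 j = 0) → a = 0

/-- The necessary conditions on the side zero at the large primes. -/
def Nec (x : B.Pt) (e : Fin B.r → F3) (w : Gam → F3) : Prop :=
  ∀ j, ∑ i, e i * uq (x i) (fq (x j)) + w (fq (x j)) = e j * kk (B.n1 x) (fq (x j))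

/-- These conditions have only the trivial solution. -/
def G1 (x : B.Pt) : Prop := ∀ e : Fin B.r → F3, (∀ j ∉ B.J, e j = 0) → ∀ w ∈ WW B.N0,
  B.Nec x e w → e = 0 ∧ w = 0

/-- Good points. -/
structure Good (x : B.Pt) : Prop where
  g0 : B.G0 x
  g1 : B.G1 x
  bal : ∀ a ∈ B.Rad x, a ∉ B.L1 → B.Bal a.2

/-- The type of colours. -/
abbrev Col := (B.S0 → A) × (Fin B.r → A) × (Gam → A)

/-- The colour of a cocycle. -/
noncomputable def col (x : B.Pt) (c : Gam → A) : B.Col :=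
  (fun q => c (sq q), fun j => c (sq (x j)), H3.rs (Gq 3) c)

/-- There is a relaxed lift with top digit `a` and colour `γ`. -/
def Has (l : ℕ) (a : B.Pat) (γ : B.Col) (x : B.Pt) : Prop := ∃ c ∈ B.RF x l a, B.col x c = γ

/-- This lift. -/
noncomputable def cg (l : ℕ) (a : B.Pat) (γ : B.Col) (x : B.Pt) : Gam → A :=
  if h : B.Has l a γ x then h.choose else 0

/-- Nondegenerate cubes. -/
structure Cb (S : Finset (Fin B.r)) (x x' : B.Pt) : Prop where
  wf : B.Wf
  mem : x ∈ B.pts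
  mem' : x' ∈ B.pts
  ne : ∀ i ∈ S, x i ≠ x' i

/-- The alternating sum over a cube. -/
noncomputable def Del (c : B.Pt → Gam → A) (S : Finset (Fin B.r)) (x x' : B.Pt) : Gam → A :=
  ∑ y ∈ S.powerset, (-1 : ℤ) ^ y.card • c (y.piecewise x' x)

/-- Properties that pass from all other vertices of a cube to the base vertex. -/
def Closed (S : Finset (Fin B.r)) (P : B.Pt → Prop) : Prop :=
  ∀ x x', B.Cb S x x' → (∀ y ⊆ S, y.Nonempty → P (y.piecewise x' x)) → P x

/-- The indicator of `Q` is a combination of at most `M` indicators of closed subsets of `Q`. -/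
def Comb (S : Finset (Fin B.r)) (M : ℝ) (Q : B.Pt → Prop) : Prop :=
  ∃ (ι : Type) (Γ : Finset ι) (w : ℝ) (P : ι → B.Pt → Prop), 0 ≤ w ∧ w * Γ.card ≤ M ∧
    (∀ γ ∈ Γ, B.Closed S (P γ) ∧ ∀ x ∈ B.pts, P γ x → Q x) ∧
    ∀ x ∈ B.pts, Q x → w * (Γ.filter fun γ => P γ x).card = 1

/-- Directions for a pair of patterns. -/
structure Dir (n : ℕ) (a b : B.Pat) (U : Finset (Fin B.r)) (ia ic : Fin B.r) : Prop where
  card : U.card = n
  low : U ⊆ B.I 0
  ha : ia ∈ B.Up
  hc : ic ∈ B.Up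
  ne : ia ≠ ic
  aU : ∀ i ∈ U, a.2 i = 0
  bU : ∀ i ∈ U, b.2 i = 0
  aa : a.2 ia ≠ 0
  ba : b.2 ia = 0
  bc : b.2 ic ≠ 0

/-- The governing function of a cube. -/
noncomputable def gv (a : B.Pat) (U : Finset (Fin B.r)) (ia : Fin B.r) (x x' : B.Pt) : Gam → F3 :=
  gov U (fun i => kk (x i) - kk (x' i)) (a.2 ia • (kk (x ia) - kk (x' ia)))

/-- The number of Selmer cocycles with a top digit that is not a multiple of the twist. -/
noncomputable def wt (x : B.Pt) (l : ℕ) : ℕ := ∑ a ∈ B.VF x with a ∉ B.L1, (B.Om x l a).card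

end Bx

end Pool.Agent.Lib.MP_696deb_nt.CU.Cw
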