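import Pool.Agent.Lib.MP_696deb_nt.CW.Main
import Pool.Agent.Lib.MP_696deb_nt.CU.An
import Pool.Agent.Lib.MP_696deb_nt.CU.KtZ

/-! The growth of the Selmer cocycles for the twists by `c * n ^ 2`. -/

set_option autoImplicit false

namespace Pool.Agent.Lib.MP_696deb_nt.CU.Cw

theorem an_two : AnStmt := fun c ε hε => by
  obtain ⟨X0, h⟩ := an_main c ε hε
  refine ⟨X0, fun X hX => ?_⟩
  obtain ⟨N, B, h1, h2, h3⟩ := h X hX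
  exact ⟨N, fun i => ⟨(B i).r, (B i).N0, (B i).X, (B i).t, (B i).J, (B i).I, (B i).Up, (B i).H,
    (B i).Y, (B i).θ⟩, fun i => ⟨⟨(h1 i).wf.n0, (h1 i).wf.prime, (h1 i).wf.cop, (h1 i).wf.disj,
    (h1 i).wf.ne, (h1 i).wf.m1, (h1 i).wf.m2⟩, (h1 i).rng, (h1 i).pos, (h1 i).le1, (h1 i).big,
    (h1 i).lg, (h1 i).hY, (h1 i).hc, (h1 i).hH, (h1 i).inert, (h1 i).win, (h1 i).up, (h1 i).dj,
    (h1 i).ord⟩, h2, h3⟩

theorem core2 (ε : ℝ) (hε : 0 < ε) : ∃ X0 : ℕ, ∀ X ≥ X0,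
    (Set.ncard {n : ℕ | 1 ≤ n ∧ n ≤ X ∧ ¬ Gro (n ^ 2) 3} : ℝ) ≤ ε * X :=
  core_of an_two ana lin ε hε

theorem zs_congr {n m : ℕ} (hk : kk n = kk m) (hd : ∀ q : ℕ, q.Prime → (q ∣ 3 * n ↔ q ∣ 3 * m))
    (e l : ℕ) : Zs n e l = Zs m e l := by
  have h : act n e = act m e := funext fun g => by simp only [act, hk]
  ext c
  simp only [mem_Zs]
  exact ⟨fun k => ⟨h ▸ k.coc, k.kil, fun q hq d => by
      simpa only [Loc, h] using k.loc q hq ((hd q hq).2 d),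
      fun q hq d => k.unr q hq fun d' => d ((hd q hq).1 d')⟩,
    fun k => ⟨h ▸ k.coc, k.kil, fun q hq d => by
      simpa only [Loc, h] using k.loc q hq ((hd q hq).1 d),
      fun q hq d => k.unr q hq fun d' => d ((hd q hq).2 d')⟩⟩

theorem gro_sq {c n s : ℕ} (hc : c ≠ 0) (hn : n ≠ 0) (h : Gro ((c ^ 2 * n) ^ 2) s) :
    Gro (c * n ^ 2) s := by
  have e : (c ^ 2 * n) ^ 2 = c ^ 3 * (c * n ^ 2) := by ring
  simpa only [Gro, zs_congr (n := c * n ^ 2) (m := (c ^ 2 * n) ^ 2) (funext fun g => by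
    rw [e, kk_mul (pow_ne_zero 3 hc) (mul_ne_zero hc (pow_ne_zero 2 hn)), kk_pow,
      show ((3 : ℕ) : F3) = 0 from rfl, zero_mul, zero_add]) fun q hq => by
    simp only [hq.dvd_mul, hq.prime.dvd_pow_iff_dvd two_ne_zero]] using h

theorem core2c {c : ℕ} (hc : c ≠ 0) (ε : ℝ) (hε : 0 < ε) : ∃ X0 : ℕ, ∀ X ≥ X0,
    (Set.ncard {n : ℕ | 1 ≤ n ∧ n ≤ X ∧ ¬ Gro (c * n ^ 2) 3} : ℝ) ≤ ε * X := by
  have h0 : 0 < c ^ 2 := Nat.pos_of_ne_zero (pow_ne_zero 2 hc)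
  obtain ⟨X0, h⟩ := core2 (ε / (c ^ 2 : ℕ)) (div_pos hε (Nat.cast_pos.2 h0))
  refine ⟨X0, fun X hX => le_trans (Nat.cast_le.2 ?_)
    ((h (c ^ 2 * X) (le_trans hX (Nat.le_mul_of_pos_left X h0))).trans_eq ?_)⟩
  · refine Set.ncard_le_ncard_of_injOn (c ^ 2 * ·) (fun n hn => ⟨Nat.mul_pos h0 hn.1,
      Nat.mul_le_mul_left _ hn.2.1, fun k => hn.2.2 (gro_sq hc (Nat.ne_of_gt hn.1) k)⟩)
      (fun _ _ _ _ e => Nat.eq_of_mul_eq_mul_left h0 e)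
      ((Set.finite_le_nat _).subset fun _ hn => hn.2.1)
  · rw [Nat.cast_mul, ← mul_assoc, div_mul_cancel₀ _ (Nat.cast_pos.2 h0).ne']

end Pool.Agent.Lib.MP_696deb_nt.CU.Cw
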