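import Pool.Agent.Lib.MP_696deb_nt.CW.SA
import Pool.Agent.Lib.MP_696deb_nt.CU.E3

/-! Cubic characters with small conductor are Dirichlet characters. -/

set_option autoImplicit false

open scoped Classical
open Finset

namespace Pool.Agent.Lib.MP_696deb_nt.CU.Cw

theorem SE_root {w : Plc} {d b : Qbar} (hb : Fx (Dec w) b) (hd : Fx (Dec w) d) (h1 : w.V d = 1)
    (h : w.V (b ^ 3 - d) ^ 2 < w.V 3 ^ 3) : ∃ r, r ^ 3 = d ∧ Fx (Dec w) r := by
  obtain ⟨r0, h0⟩ := IsAlgClosed.exists_pow_nat_eq d three_pos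
  have z3 := H3.TA.zeta_cube
  have z2 : zeta 1 ^ 2 + zeta 1 + 1 = 0 :=
    mul_left_cancel₀ (sub_ne_zero.2 H3.zeta_one_ne) (by linear_combination z3)
  obtain ⟨r, hr, k⟩ : ∃ r, r ^ 3 = d ∧ w.V (b - r) ^ 2 < w.V 3 := by
    by_contra! hn
    have e : b ^ 3 - d = (b - r0) * (b - zeta 1 * r0) * (b - zeta 1 ^ 2 * r0) := by
      linear_combination (b ^ 2 * r0 - b * r0 ^ 2 * zeta 1) * z2 + r0 ^ 3 * z3 + h0
    refine h.not_ge ?_
    rw [e, map_mul, map_mul, mul_pow, mul_pow, pow_succ (w.V 3), pow_two (w.V 3)]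
    exact mul_le_mul' (mul_le_mul' (hn _ h0) (hn _ (by rw [mul_pow, z3, one_mul, h0])))
      (hn _ (by rw [mul_pow, zsq_cube, one_mul, h0]))
  refine ⟨r, hr, fun g hg => by_contra fun hn => k.not_ge ?_⟩
  have e1 : g r ^ 3 = d := by rw [← map_pow, hr, hd g hg]
  have e2 : (g r - r) ^ 2 = -(3 * (g r * r)) :=
    mul_left_cancel₀ (sub_ne_zero.2 hn) (by linear_combination e1 - hr)
  have e3 : w.V r = 1 := by
    rw [← pow_eq_one_iff_of_nonneg zero_le three_ne_zero, ← map_pow, hr, h1]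
  have e4 : w.V (g r - r) ≤ w.V (b - r) := by
    rw [← sub_add_sub_cancel _ b]
    refine w.V.map_add_le (le_of_eq ?_) le_rfl
    rw [w.V.map_sub_swap, ← B2.mem_Dec.1 hg (b - r), map_sub g, hb g hg]
  refine le_trans (le_of_eq ?_) (pow_le_pow_left' e4 2)
  rw [← map_pow, e2, w.V.map_neg, map_mul, map_mul, B2.mem_Dec.1 hg, e3, mul_one, mul_one]

theorem SE_kk {D : Subgroup Gam} {d : ℕ} {r : Qbar} (h0 : d ≠ 0) (h : r ^ 3 = d) (k : Fx D r) :
    ∃ j : F3, ∀ g ∈ D, kk d g = j * (chi g - 1) := by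
  have r0 : r ≠ 0 := fun e => Nat.cast_ne_zero.2 h0 (by rw [← h, e, zero_pow three_ne_zero])
  obtain ⟨j, hj⟩ := e3_exists (x := rho d / r) (by
    rw [div_pow, h, rho_cube, div_self (Nat.cast_ne_zero.2 h0)])
  rw [div_eq_iff r0] at hj
  refine ⟨j, fun g hg => kk_eq h0 ?_⟩
  rw [hj, map_mul, k g hg, e3_smul, mul_right_comm, ← e3_add]
  congr 3
  ring

/-- Congruent numbers have the same local Kummer class. -/
theorem kk_near {q a b N : ℕ} (hq : q.Prime) (hN : q ∣ 3 * N) (ha : a.Coprime (3 * N))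
    (h : a ≡ b [MOD 9 * N]) : ∃ j : F3, ∀ g ∈ Gq q, kk a g = kk b g + j * (chi g - 1) := by
  have h9 : 3 * N ∣ 9 * N := mul_dvd_mul_right (by norm_num) N
  have qa : ¬ q ∣ a := hq.coprime_iff_not_dvd.1 (ha.coprime_dvd_right hN).symm
  have qb : ¬ q ∣ b := fun e => qa (((h.of_dvd (hN.trans h9)).dvd_iff dvd_rfl).2 e)
  have a0 : a ≠ 0 := fun e => qa (e ▸ dvd_zero q)
  have b0 : b ≠ 0 := fun e => qb (e ▸ dvd_zero q)
  obtain ⟨t, ht⟩ := h.dvd
  have e : (b : Qbar) ^ 3 - (a * b ^ 2 : ℕ) = b ^ 2 * ((b - a : ℤ) : Qbar) := by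
    push_cast
    ring
  obtain ⟨r, h1, h2⟩ := SE_root (w := pl q) (b := b) (d := (a * b ^ 2 : ℕ))
    (fun g _ => map_natCast g b) (fun g _ => map_natCast g _)
    (by rw [Nat.cast_mul, Nat.cast_pow, map_mul, map_pow, e2a_V hq qa, e2a_V hq qb]; simp) (by
      rw [e, map_mul, map_pow, e2a_V hq qb, one_pow, one_mul]
      rcases eq_or_ne q 3 with rfl | q3
      · have v : (pl 3).V 3 = 3⁻¹ := by simpa [pl_p hq] using (pl 3).hV
        have u : (pl 3).V ((b - a : ℤ) : Qbar) ≤ 3⁻¹ ^ 2 := by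
          rw [ht, show (((9 * N : ℕ) * t : ℤ) : Qbar) = 3 ^ 2 * (N * t : ℤ) by push_cast; ring,
            map_mul, map_pow, v]
          exact mul_le_of_le_one_right' ((pl 3).V_int_le _)
        refine (pow_le_pow_left' u 2).trans_lt ?_
        rw [v, ← NNReal.coe_lt_coe]
        norm_num
      · have v : (pl q).V 3 = 1 := by
          simpa using e2a_V (n := 3) hq fun e =>
            q3 ((Nat.prime_dvd_prime_iff_eq hq Nat.prime_three).1 e)
        rw [v, one_pow]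
        refine pow_lt_one' (((pl q).V_int_le _).lt_of_ne fun e => (pl q).V_int_eq_one.1 e ?_)
          two_ne_zero
        rw [pl_p hq, ht]
        exact (Int.natCast_dvd_natCast.2 (hN.trans h9)).mul_right t)
  obtain ⟨j, hj⟩ := SE_kk (mul_ne_zero a0 (pow_ne_zero 2 b0)) h1 h2
  refine ⟨j, fun g hg => ?_⟩
  rw [← hj g hg, kk_mul a0 (pow_ne_zero 2 b0), kk_pow]
  generalize kk a g = x, kk b g = y
  revert x y
  decide

/-- The value at a Frobenius element as a sum of local terms. -/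
theorem ww_frob {N p : ℕ} (hN : N ≠ 0) {w : Gam → F3} (hw : w ∈ WW N) (hp : p.Prime)
    (h : ¬ p ∣ 3 * N) : w (fq p) = -∑ q ∈ (3 * N).primeFactors, lp q w (kk p) := by
  have n0 : 3 * N ≠ 0 := mul_ne_zero three_ne_zero hN
  have p3 : p ≠ 3 := fun e => h (e ▸ dvd_mul_right 3 N)
  have := recip_lp hw.1 (kc_kk p ⊤) (insert p (3 * N).primeFactors)
    ((forall_mem_insert ..).2 ⟨hp, fun q hq => Nat.prime_of_mem_primeFactors hq⟩)
    (mem_insert_of_mem (Nat.mem_primeFactors.2 ⟨Nat.prime_three, dvd_mul_right 3 N, n0⟩))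
    fun q hq hn => by
      rw [mem_insert, not_or] at hn
      have k : ¬ q ∣ 3 * N := fun e => hn.2 (Nat.mem_primeFactors.2 ⟨hq, e, n0⟩)
      have q3 : q ≠ 3 := fun e => k (e ▸ dvd_mul_right 3 N)
      exact ⟨hw.2 q hq k, kk_ine hq q3
        (fun e => hn.1 ((Nat.prime_dvd_prime_iff_eq hq hp).1 e)) (sq_ine hq q3)⟩
  rwa [sum_insert fun e => h (Nat.dvd_of_mem_primeFactors e), lp_unr hp p3 (hw.1.mono le_top)
    (kc_kk p _) (hw.2 p hp h), kk_sq_self hp p3, mul_one, ← eq_neg_iff_add_eq_zero] at this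

theorem Bx.B1c.eq_zero {B : Bx} {x : B.Pt} (h : B.Wf) (hx : x ∈ B.pts) (k : B.B1c x)
    {w : Gam → F3} (hw : w ∈ WW B.N0) (e : ∀ j, w (fq (x j)) = 0) : w = 0 := by
  have n0 : ∀ {a : ℕ}, a.Coprime (3 * B.N0) → a ≠ 0 := by
    rintro _ ha rfl
    rw [Nat.coprime_zero_left] at ha
    omega
  have hl : ∀ q, Kc 0 (Gq q) w := fun q => hw.1.mono le_top
  have key := k (fun m => -∑ q ∈ (3 * B.N0).primeFactors, lp q w (kk m))
    (fun a b ha hb => by
      rw [← neg_add, ← sum_add_distrib]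
      exact congrArg _ (sum_congr rfl fun q _ => (lp_congr (fun _ _ => rfl) fun g _ =>
        kk_mul (n0 ha) (n0 hb) g).trans (lp_add_right (hl q) (kc_kk a _) (kc_kk b _))))
    (fun a b ha hab => congrArg _ (sum_congr rfl fun q hq => by
      obtain ⟨j, hj⟩ := kk_near (Nat.prime_of_mem_primeFactors hq)
        (Nat.dvd_of_mem_primeFactors hq) ha hab
      refine ((lp_congr (fun _ _ => rfl) hj).trans
        (lp_add_right (hl q) (kc_kk b _) ((kc_chi _).smul j))).trans ?_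
      rw [lp_smul_right (hl q) (kc_chi _), lp_chi (hl q), mul_zero, add_zero]))
    fun j => (ww_frob h.n0 hw (h.prime j _ (Bx.mem_pts.1 hx j))
      (h.cop j _ (Bx.mem_pts.1 hx j))).symm.trans (e j)
  refine funext (hom_eq_zero hw.1 (3 * B.N0).primeFactors fun q hq hn => ?_)
  have c : ¬ q ∣ 3 * B.N0 := fun e =>
    hn (Nat.mem_primeFactors.2 ⟨hq, e, mul_ne_zero three_ne_zero h.n0⟩)
  exact (ww_frob h.n0 hw hq c).trans (key q (hq.coprime_iff_not_dvd.2 c))

end Pool.Agent.Lib.MP_696deb_nt.CU.Cw
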