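import Pool.Agent.Lib.MP_696deb_nt.CW.Fib
import Pool.Agent.Lib.MP_696deb_nt.CW.SD

/-! First moments at level one. -/

set_option autoImplicit false

open scoped Classical
open Finset

namespace Pool.Agent.Lib.MP_696deb_nt.CU.Cw

namespace Bx

theorem lin_box (lin : LinStmt) (E : ℕ) : ∃ c : ℕ, ∀ B : Bx, B.Hyp c →
    Lin ee B.X B.J (fun p q => kk p (fq q)) (1 / B.Z ^ E) := by
  obtain ⟨c, hc⟩ := lin E
  refine ⟨c, fun B h i j hj hij t ht α β hα hβ => ?_⟩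
  have k := hc B.Z _ _ _ _ t α β h.two_le (h.rng' i) (h.rng' j)
    (disjoint_left.2 fun p hp hp' => hij (h.wf.disj i j p hp hp')) (h.wf.m1 j hj) ht hα hβ
  have h1 : (0 : ℝ) < (B.X i).card := Nat.cast_pos.2 (h.wf.ne i).card_pos
  have h2 : (0 : ℝ) < (B.X j).card := Nat.cast_pos.2 (h.wf.ne j).card_pos
  simp only [expect_eq_sum_div_card, ← sum_div, norm_div, Complex.norm_natCast]
  rw [div_div, div_le_iff₀ (mul_pos h2 h1)]
  exact k.trans_eq (by ring)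

theorem gen_out {B : Bx} {c : ℕ} (h : B.Hyp (c + 1)) : ∃ i, i ∉ B.J := by
  obtain ⟨i, hi⟩ := card_pos.1 (((Nat.mul_pos c.succ_pos B.k0.succ_pos).trans_le h.hH).trans_le
    h.inert)
  exact ⟨i, mem_compl.1 hi⟩

theorem gen_kk {B : Bx} {x : B.Pt} (h : B.Wf) (hx : x ∈ B.pts) (g : Gam) :
    kk (B.n1 x) g = kk B.N0 g + ∑ i, kk (x i) g := by
  have k : ∀ i ∈ (univ : Finset (Fin B.r)), x i ≠ 0 := fun i _ =>
    (h.prime i _ (mem_pts.1 hx i)).ne_zero
  rw [n1, kk_mul h.n0 (prod_ne_zero_iff.2 k), kk_prod _ k]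

theorem gen_V (lin : LinStmt) (E : ℕ) : ∃ c : ℕ, ∀ B : Bx, B.Hyp c → ∀ a : B.Pat,
    (∃ i j, a.2 i ≠ a.2 j) → ((B.pts.filter fun x => a ∈ B.V x).card : ℝ) ≤
      (1 / 3 ^ B.J.card + 1 / B.Z ^ E) * B.pts.card := by
  obtain ⟨c, hc⟩ := lin_box lin E
  refine ⟨c + 1, fun B h a ha => le_trans (Nat.cast_le.2 (card_le_card fun x hx => ?_))
    (gen_two ee_prim h.wf.ne (one_div_nonneg.2 (pow_nonneg (zero_le_two.trans h.two_le) _))
      (hc B (h.mono c.le_succ)) (gen_out h) ha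
      fun j p => ∑ q : B.S0, a.1 q * kk q (fq p) - a.2 j * kk B.N0 (fq p))⟩
  obtain ⟨hx, hv⟩ := mem_filter.1 hx
  refine (@mem_filter _ _ (_) _ _).2 ⟨hx, fun j hj => ?_⟩
  have k := ((mem_V_iff h.wf hx).1 hv).2 j hj
  rw [kA_apply, gen_kk h.wf hx] at k
  simp only [sub_mul, sum_sub_distrib, ← mul_sum]
  linear_combination k

theorem gen_Nec (lin : LinStmt) (E : ℕ) : ∃ c : ℕ, ∀ B : Bx, B.Hyp c → ∀ e : Fin B.r → F3,
    e ≠ 0 → (∀ j ∉ B.J, e j = 0) → ∀ w : Gam → F3,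
      ((B.pts.filter fun x => B.Nec x e w).card : ℝ) ≤ (3 / 3 ^ B.r + 1 / B.Z ^ E) * B.pts.card := by
  obtain ⟨c, hc⟩ := lin_box lin (E + K3)
  refine ⟨c + 1, fun B h e he hJ w => ?_⟩
  have hZ : (0 : ℝ) < B.Z := two_pos.trans_le h.two_le
  have k := gen_one ee_prim h.wf.ne (u := fun q p => uq q (fq p))
    (one_div_nonneg.2 (pow_pos hZ _).le) (hc B (h.mono c.le_succ)) (gen_out h)
    (fun p => H3.rs (Gq 3) (kk p)) (fun l q => lp 3 (uq q) l) (K := K3)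
    (fun j => (card_le_card (t := (finite_Z3 1).toFinset) fun u hu => by
      obtain ⟨p, -, rfl⟩ := mem_image.1 hu
      exact (Set.Finite.mem_toFinset _).2 ⟨(kc_kk p _).congr fun _ hg => (H3.rs_of_mem hg _).symm,
        fun _ hg => H3.rs_of_notMem hg _⟩).trans
      ((Set.ncard_eq_toFinset_card _ _).symm.trans_le (card_Z3 1)))
    (fun i hi j hj q hq p hp => by
      rw [uq_recip (h.wf.prime i q hq) (h.wf.m1 i hi q hq) (h.wf.prime j p hp)
        (fun k => h.wf.cop j p hp (k.dvd.mul_right _))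
        fun k => hj (h.wf.disj j i p hp (k ▸ hq))]
      exact congrArg _ (lp_congr (fun _ _ => rfl) fun g hg => (H3.rs_of_mem hg _).symm))
    he hJ fun j p => w (fq p) - e j * kk B.N0 (fq p)
  rw [Fintype.card_fin] at k
  refine (le_trans (Nat.cast_le.2 (card_le_card fun x hx => ?_)) k).trans
    (mul_le_mul_of_nonneg_right (add_le_add le_rfl ?_) (Nat.cast_nonneg _))
  · obtain ⟨hx, hv⟩ := mem_filter.1 hx
    refine (@mem_filter _ _ (_) _ _).2 ⟨hx, fun j => ?_⟩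
    have k := hv j
    rw [gen_kk h.wf hx] at k
    linear_combination k
  · have k1 : (K3 : ℝ) ≤ B.Z ^ K3 :=
      le_trans (by exact_mod_cast Nat.lt_two_pow_self.le) (pow_le_pow_left₀ zero_le_two h.two_le _)
    rw [mul_one_div, div_le_div_iff₀ (pow_pos hZ _) (pow_pos hZ _), one_mul, pow_add, mul_comm]
    exact mul_le_mul_of_nonneg_left k1 (pow_pos hZ _).le

theorem gen_num {B : Bx} {m E : ℕ} (h : B.Hyp (m + 1))
    (hE : ((3 : ℕ) : ℝ) ^ ((B.r + B.k0 + 1) ^ 2) ≤ B.Z ^ E) :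
    (3 : ℝ) ^ B.J.card * 3 ^ B.k0 * (3 / 3 ^ B.r + 1 / B.Z ^ (E + m)) ≤ 4 / 2 ^ m := by
  have hZ : (0 : ℝ) < B.Z := two_pos.trans_le h.two_le
  have e : B.J.card + B.Jᶜ.card = B.r := by rw [card_add_card_compl, Fintype.card_fin]
  have e1 : B.J.card + B.k0 + m ≤ B.r := by
    have := h.hH.trans h.inert
    nlinarith
  have k1 : (3 : ℝ) ^ B.J.card * 3 ^ B.k0 * 2 ^ m ≤ 3 ^ B.r := by
    refine le_trans ?_ (pow_le_pow_right₀ (by norm_num) e1)
    rw [pow_add, pow_add]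
    gcongr
    norm_num
  have k2 : (3 : ℝ) ^ B.J.card * 3 ^ B.k0 * 2 ^ m ≤ B.Z ^ (E + m) := by
    rw [pow_add, ← pow_add 3]
    refine mul_le_mul (le_trans ?_ hE) (pow_le_pow_left₀ zero_le_two h.two_le _) (by positivity)
      (pow_pos hZ _).le
    exact pow_le_pow_right₀ (by norm_num) (by nlinarith)
  have k3 : (3 : ℝ) ^ B.J.card * 3 ^ B.k0 * 2 ^ m / 3 ^ B.r ≤ 1 := (div_le_one (by positivity)).2 k1
  have k4 : (3 : ℝ) ^ B.J.card * 3 ^ B.k0 * 2 ^ m / B.Z ^ (E + m) ≤ 1 :=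
    (div_le_one (pow_pos hZ _)).2 k2
  rw [le_div_iff₀ (by positivity)]
  calc _ = 3 * ((3 : ℝ) ^ B.J.card * 3 ^ B.k0 * 2 ^ m / 3 ^ B.r) +
        (3 : ℝ) ^ B.J.card * 3 ^ B.k0 * 2 ^ m / B.Z ^ (E + m) := by ring
    _ ≤ 4 := by linarith

theorem gen_G1 (lin : LinStmt) {ε : ℝ} (hε : 0 < ε) : ∃ c : ℕ, ∀ B : Bx, B.Hyp c →
    ((B.pts.filter fun x => B.B1c x ∧ ¬ B.G1 x).card : ℝ) ≤ ε * B.pts.card := by
  obtain ⟨E, hE⟩ := pow_le_Z 3
  obtain ⟨m, hm⟩ := pow_unbounded_of_one_lt (K3 * 4 / ε) (one_lt_two (α := ℝ))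
  obtain ⟨c, hc⟩ := gen_Nec lin (E + m)
  refine ⟨c + m + 1, fun B h => ?_⟩
  have hZ : (0 : ℝ) < B.Z := two_pos.trans_le h.two_le
  let P : Finset (Fin B.r → F3) := Fintype.piFinset fun j => if j ∈ B.J then univ else {0}
  have hP : P.card = 3 ^ B.J.card := by
    rw [Fintype.card_piFinset]
    simp only [apply_ite card, card_singleton, card_univ, ZMod.card]
    rw [prod_ite_mem, univ_inter, prod_const]
  have h1 : (B.pts.filter fun x => B.B1c x ∧ ¬ B.G1 x) ⊆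
      (P.erase 0 ×ˢ (finite_WW h.wf.n0).toFinset).biUnion
        fun t => B.pts.filter fun x => B.Nec x t.1 t.2 := fun x hx => by
    obtain ⟨hx, h2, h3⟩ := mem_filter.1 hx
    simp only [G1, not_forall] at h3
    obtain ⟨e, he, w, hw, hn, h0⟩ := h3
    refine mem_biUnion.2 ⟨(e, w), mem_product.2 ⟨mem_erase.2 ⟨?_, Fintype.mem_piFinset.2 fun j => ?_⟩,
      (Set.Finite.mem_toFinset _).2 hw⟩, mem_filter.2 ⟨hx, hn⟩⟩
    · rintro (rfl : e = 0)
      exact h0 ⟨rfl, h2.eq_zero h.wf hx hw fun j => by simpa using hn j⟩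
    · split_ifs with k
      exacts [mem_univ _, mem_singleton.2 (he j k)]
  have h2 : ((P.erase 0 ×ˢ (finite_WW h.wf.n0).toFinset).card : ℝ) ≤
      K3 * (3 ^ B.J.card * 3 ^ B.k0) := by
    have k := Nat.mul_le_mul ((card_erase_le (s := P) (a := 0)).trans_eq hP)
      ((Set.ncard_eq_toFinset_card _ (finite_WW h.wf.n0)).symm.trans_le (card_WW h.wf.n0))
    rw [← card_product, mul_left_comm] at k
    exact_mod_cast k
  have h3 := (Nat.cast_le (α := ℝ)).2 ((card_le_card h1).trans card_biUnion_le)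
  rw [Nat.cast_sum] at h3
  refine (h3.trans (sum_le_card_nsmul _ _ ((3 / 3 ^ B.r + 1 / B.Z ^ (E + m)) * B.pts.card)
    fun t ht => ?_)).trans ?_
  · have k := mem_erase.1 (mem_product.1 ht).1
    refine hc B (h.mono (by omega)) t.1 k.1 (fun j hj => ?_) t.2
    simpa [hj] using Fintype.mem_piFinset.1 k.2 j
  · rw [nsmul_eq_mul, ← mul_assoc]
    refine mul_le_mul_of_nonneg_right ((mul_le_mul_of_nonneg_right h2 (by positivity)).trans ?_)
      (Nat.cast_nonneg _)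
    rw [mul_assoc]
    refine (mul_le_mul_of_nonneg_left (gen_num (h.mono (by omega)) (hE B h.pos h.le1))
      (Nat.cast_nonneg _)).trans ?_
    rw [← mul_div_assoc, div_le_iff₀ (by positivity), mul_comm ε]
    exact ((div_lt_iff₀ hε).1 hm).le

end Bx

end Pool.Agent.Lib.MP_696deb_nt.CU.Cw
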