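import Pool.Agent.Lib.MP_696deb_nt.CW.Gen
import Pool.Agent.Lib.MP_696deb_nt.CW.Tri

/-! Almost all points are good. -/

set_option autoImplicit false

open scoped Classical
open Finset

namespace Pool.Agent.Lib.MP_696deb_nt.CU.Cw

namespace Bx

theorem nonconst {B : Bx} (h : B.Wf) {x : B.Pt} (hx : x ∈ B.pts) (g : B.G0 x) {a : B.Pat}
    (ha : a ∈ B.V x) (k : a ∉ B.L1) (j : Fin B.r) : ∃ i, a.2 i ≠ a.2 j := by
  by_contra hn
  push Not at hn
  refine k (mem_L1.2 ⟨a.2 j, sub_eq_zero.1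
    (g _ (sub_mem ha (smul_mem_V (tau_mem h hx) (a.2 j))) fun i _ => ?_)⟩)
  show a.2 i - a.2 j * 1 = 0
  rw [hn i, mul_one, sub_self]

theorem card_unbal {B : Bx} {c : ℕ} (h : B.Hyp c) :
    ((univ.filter fun a : B.Pat => ¬ B.Bal a.2).card : ℝ) ≤
      6 * 3 ^ (B.k0 + B.r) * (399 / 400) ^ B.H := by
  have h1 : ∀ k, ((univ.filter fun v : Fin B.r → ZMod 3 => ¬ CU.Bal (B.I k) v).card : ℝ) ≤
      3 * 3 ^ B.r * (399 / 400) ^ B.H := fun k => by
    have := bal_count (B.I k)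
    rw [Fintype.card_fin] at this
    refine le_trans (le_of_eq (by congr)) (this.trans ?_)
    exact mul_le_mul_of_nonneg_left (pow_le_pow_of_le_one (by norm_num) (by norm_num) (h.win k))
      (by positivity)
  have h2 : (univ.filter fun a : B.Pat => ¬ B.Bal a.2) ⊆ univ ×ˢ
      ((univ.filter fun v : Fin B.r → ZMod 3 => ¬ CU.Bal (B.I 0) v) ∪
        univ.filter fun v : Fin B.r → ZMod 3 => ¬ CU.Bal (B.I 1) v) := fun a ha => by
    obtain ⟨k, hk⟩ := not_forall.1 (mem_filter.1 ha).2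
    refine mem_product.2 ⟨mem_univ _, mem_union.2 ?_⟩
    fin_cases k
    · exact .inl (mem_filter.2 ⟨mem_univ _, hk⟩)
    · exact .inr (mem_filter.2 ⟨mem_univ _, hk⟩)
  have h3 := (card_le_card h2).trans ((card_product _ _).le.trans
    (Nat.mul_le_mul_left _ (card_union_le _ _)))
  rw [card_univ, show Fintype.card (B.S0 → ZMod 3) = 3 ^ B.k0 by simp [k0]] at h3
  have h4 := (Nat.cast_le (α := ℝ)).2 h3
  push_cast at h4
  refine h4.trans ((mul_le_mul_of_nonneg_left (add_le_add (h1 0) (h1 1))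
    (by positivity)).trans_eq ?_)
  rw [pow_add]
  ring

theorem genB_swap {B : Bx} {c : ℕ} (h : B.Hyp (c + 1)) {M : ℝ} (hM : 0 ≤ M)
    (k : ∀ a : B.Pat, (∃ i j, a.2 i ≠ a.2 j) →
      ((B.pts.filter fun x => a ∈ B.V x).card : ℝ) ≤ M) :
    ∑ x ∈ B.pts with B.G0 x, (((B.VF x).filter fun a => a ∉ B.L1 ∧ ¬ B.Bal a.2).card : ℝ) ≤
      6 * 3 ^ (B.k0 + B.r) * (399 / 400) ^ B.H * M := by
  obtain ⟨j, -⟩ : (B.I 0).Nonempty := card_pos.1
    (lt_of_lt_of_le (Nat.mul_pos c.succ_pos B.k0.succ_pos) (h.hH.trans (h.win 0)))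
  set U := univ.filter fun a : B.Pat => ¬ B.Bal a.2 ∧ ∃ i j, a.2 i ≠ a.2 j
  calc _ ≤ ∑ x ∈ B.pts with B.G0 x, ((U.filter fun a => a ∈ B.V x).card : ℝ) :=
        sum_le_sum fun x hx => Nat.cast_le.2 (card_le_card fun a ha => by
          obtain ⟨h1, h2, h3⟩ := mem_filter.1 ha
          obtain ⟨i, hi⟩ := nonconst h.wf (mem_filter.1 hx).1 (mem_filter.1 hx).2 (mem_VF.1 h1) h2 j
          exact mem_filter.2 ⟨mem_filter.2 ⟨mem_univ _, h3, i, j, hi⟩, mem_VF.1 h1⟩)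
    _ ≤ ∑ x ∈ B.pts, ((U.filter fun a => a ∈ B.V x).card : ℝ) :=
        sum_le_sum_of_subset_of_nonneg (filter_subset _ _) fun _ _ _ => Nat.cast_nonneg _
    _ = ∑ a ∈ U, ((B.pts.filter fun x => a ∈ B.V x).card : ℝ) := by
        simp only [card_filter]
        push_cast
        exact sum_comm
    _ ≤ ∑ a ∈ U, M := sum_le_sum fun a ha => k a (mem_filter.1 ha).2.2
    _ ≤ _ := by
        rw [sum_const, nsmul_eq_mul]
        refine mul_le_mul_of_nonneg_right (le_trans (Nat.cast_le.2 (card_le_card fun a ha => ?_))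
          (card_unbal h)) hM
        exact mem_filter.2 ⟨mem_univ _, (mem_filter.1 ha).2.1⟩

theorem unbal_sum (lin : LinStmt) {ε : ℝ} (hε : 0 < ε) : ∃ c : ℕ, ∀ B : Bx, B.Hyp c →
    ∑ x ∈ B.pts with B.G0 x,
      9 * (((B.VF x).filter fun a => a ∉ B.L1 ∧ ¬ B.Bal a.2).card : ℝ) / (B.VF x).card ≤
        ε * B.pts.card := by
  obtain ⟨E, hE⟩ := pow_le_Z 3
  obtain ⟨c1, h1⟩ := gen_V lin E
  have hK : (0 : ℝ) < K3 := Nat.cast_pos.2 K3_pos
  obtain ⟨c2, h2⟩ := exists_pow_lt_of_lt_one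
    (lt_min (by norm_num : (0 : ℝ) < 1 / 9) (div_pos hε (mul_pos (by norm_num : (0 : ℝ) < 108) hK)))
    (by norm_num : (399 / 400 : ℝ) < 1)
  obtain ⟨h3, h4⟩ := lt_min_iff.1 h2
  refine ⟨c1 + c2 + 1, fun B h => ?_⟩
  have z : (3 : ℝ) ^ B.J.card ≤ B.Z ^ E := by
    refine le_trans (pow_le_pow_right₀ (by norm_num) ?_) (by simpa using hE B h.pos h.le1)
    have := card_le_univ B.J
    rw [Fintype.card_fin] at this
    exact this.trans ((by omega : B.r ≤ B.r + B.k0 + 1).trans (Nat.le_self_pow two_ne_zero _))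
  have s := genB_swap h (M := 2 / 3 ^ B.J.card * B.pts.card) (by positivity) fun a ha =>
    (h1 B (h.mono (by omega)) a ha).trans (mul_le_mul_of_nonneg_right (by
      have := one_div_le_one_div_of_le (by positivity) z
      calc _ ≤ 1 / (3 : ℝ) ^ B.J.card + 1 / 3 ^ B.J.card := add_le_add le_rfl this
        _ = _ := by ring) (Nat.cast_nonneg _))
  have q : 9 ^ B.k0 * (399 / 400 : ℝ) ^ B.H ≤ (399 / 400) ^ c2 := by
    calc _ ≤ 9 ^ B.k0 * (399 / 400 : ℝ) ^ (c2 * (B.k0 + 1)) :=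
          mul_le_mul_of_nonneg_left (pow_le_pow_of_le_one (by norm_num) (by norm_num)
            ((Nat.mul_le_mul_right _ (by omega)).trans h.hH)) (by positivity)
      _ = (9 * (399 / 400) ^ c2) ^ B.k0 * (399 / 400) ^ c2 := by
          rw [pow_mul, pow_succ, mul_pow, mul_assoc]
      _ ≤ _ := mul_le_of_le_one_left (by positivity) (pow_le_one₀ (by positivity) (by linarith))
  calc _ ≤ ∑ x ∈ B.pts with B.G0 x, 9 * (K3 * 9 ^ B.k0 * 3 ^ B.J.card / 3 ^ (B.k0 + B.r)) *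
        (((B.VF x).filter fun a => a ∉ B.L1 ∧ ¬ B.Bal a.2).card : ℝ) := by
        refine sum_le_sum fun x hx => ?_
        have v := (Nat.cast_le (α := ℝ)).2 (card_V h.wf (mem_filter.1 hx).1)
        push_cast at v
        have v0 : (0 : ℝ) < (B.VF x).card := Nat.cast_pos.2 (card_pos.2 ⟨0, mem_VF.2 (zero_mem _)⟩)
        rw [div_eq_mul_one_div, mul_right_comm]
        refine mul_le_mul_of_nonneg_right (mul_le_mul_of_nonneg_left ?_ (by norm_num))
          (Nat.cast_nonneg _)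
        rw [div_le_div_iff₀ v0 (by positivity), one_mul]
        exact v
    _ ≤ 9 * (K3 * 9 ^ B.k0 * 3 ^ B.J.card / 3 ^ (B.k0 + B.r)) *
        (6 * 3 ^ (B.k0 + B.r) * (399 / 400) ^ B.H * (2 / 3 ^ B.J.card * B.pts.card)) := by
        rw [← mul_sum]
        exact mul_le_mul_of_nonneg_left s (by positivity)
    _ = 108 * K3 * (9 ^ B.k0 * (399 / 400) ^ B.H) * B.pts.card := by
        field_simp
        ring
    _ ≤ _ := by
        refine mul_le_mul_of_nonneg_right ?_ (Nat.cast_nonneg _)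
        rw [lt_div_iff₀' (by positivity)] at h4
        exact (mul_le_mul_of_nonneg_left q (by positivity)).trans h4.le

theorem few_bad (ana : AnaStmt) (lin : LinStmt) {ε : ℝ} (hε : 0 < ε) : ∃ c : ℕ, ∀ B : Bx,
    B.Hyp c → ((B.pts.filter fun x => B.B1c x ∧ B.B1p x ∧ ¬ B.Good x).card : ℝ) ≤
      ε * B.pts.card := by
  have h3 : 0 < ε / 3 := by positivity
  obtain ⟨E, hE⟩ := pow_unbounded_of_one_lt (1 / (ε / 3)) (one_lt_two (α := ℝ))
  obtain ⟨c1, h1⟩ := gen_G1 lin h3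
  obtain ⟨c2, h2⟩ := rad_sum ana E
  obtain ⟨c3, h4⟩ := unbal_sum lin h3
  refine ⟨c1 + c2 + c3, fun B h => ?_⟩
  have k1 := h1 B (h.mono (by omega))
  have k2 := h2 B (h.mono (by omega)) fun a => ¬ B.Bal a.2
  have k3 := h4 B (h.mono (by omega))
  have k4 : (B.pts.card : ℝ) / B.Z ^ E ≤ ε / 3 * B.pts.card := by
    rw [div_eq_mul_one_div, mul_comm]
    refine mul_le_mul_of_nonneg_right ?_ (Nat.cast_nonneg _)
    have z : (0 : ℝ) < B.Z ^ E := pow_pos (two_pos.trans_le h.two_le) E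
    exact (one_div_le z h3).2 (hE.le.trans (pow_le_pow_left₀ zero_le_two h.two_le E))
  set P := (B.pts.filter fun x => B.G0 x).filter fun x =>
    ((B.VF x).filter fun a => a ∈ B.Rad x ∧ a ∉ B.L1 ∧ ¬ B.Bal a.2).Nonempty with hP
  have k5 : (P.card : ℝ) ≤ ∑ x ∈ B.pts with B.G0 x,
      (((B.VF x).filter fun a => a ∈ B.Rad x ∧ a ∉ B.L1 ∧ ¬ B.Bal a.2).card : ℝ) := by
    rw [card_eq_sum_ones, Nat.cast_sum]
    exact (sum_le_sum fun x hx => Nat.cast_le.2 (card_pos.2 (mem_filter.1 hx).2)).trans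
      (sum_le_sum_of_subset_of_nonneg (filter_subset _ _) fun _ _ _ => Nat.cast_nonneg _)
  have k6 : (B.pts.filter fun x => B.B1c x ∧ B.B1p x ∧ ¬ B.Good x) ⊆
      (B.pts.filter fun x => B.B1c x ∧ ¬ B.G1 x) ∪ P := fun x hx => by
    obtain ⟨x1, x2, x3, x4⟩ := mem_filter.1 hx
    have g := B1p.g0 h.wf x1 x3
    by_cases e : B.G1 x
    · refine mem_union_right _ (mem_filter.2 ⟨mem_filter.2 ⟨x1, g⟩, ?_⟩)
      by_contra hn
      refine x4 ⟨g, e, fun a ha k => by_contra fun b => hn ⟨a, ?_⟩⟩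
      exact mem_filter.2 ⟨mem_VF.2 ha.1, ha, k, b⟩
    · exact mem_union_left _ (mem_filter.2 ⟨x1, x2, e⟩)
  have k7 := (Nat.cast_le (α := ℝ)).2 ((card_le_card k6).trans (card_union_le _ _))
  push_cast at k7
  have k8 : (P.card : ℝ) ≤ ε / 3 * B.pts.card + ε / 3 * B.pts.card :=
    (k5.trans (le_trans (le_of_eq (by congr!)) k2)).trans
      (add_le_add (le_trans (le_of_eq (by congr!)) k3) k4)
  linarith

end Bx

end Pool.Agent.Lib.MP_696deb_nt.CU.Cw
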