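import Pool.Agent.Lib.MP_696deb_nt.CW.SD
import Pool.Agent.Lib.MP_696deb_nt.CU.SBb

/-! The recursion at one point. -/

set_option autoImplicit false

open scoped Classical
open Finset

namespace Pool.Agent.Lib.MP_696deb_nt.CU.Cw

namespace Bx

variable {B : Bx} {x : B.Pt} {a b : B.Pat} {c : Gam → A} {l m : ℕ}

/-- One step of the recursion at a point. -/
theorem om_step (h : B.Wf) (hx : x ∈ B.pts) (h0 : Zs (B.nn x) 0 1 = ⊥) (hm : 1 ≤ m) (a : B.Pat) :
    ((B.Om x (2 * m + 2) a).card : ℝ) ≤ 27 * (B.Om x (2 * m) a).card +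
      (∑ b ∈ B.VF x with b ∈ B.Rad x ∧ a ∈ B.Rad x ∧ b ∉ B.L2 a,
        ∑ c ∈ B.RF x (2 * m + 2) a, ee (B.Dx x c b)).re / (B.wB * (B.VF x).card) := by
  have hW : (0 : ℝ) < B.wB := Nat.cast_pos.2 (wB_pos h)
  have hv : (0 : ℝ) < (B.VF x).card := Nat.cast_pos.2 (card_pos.2 ⟨0, mem_VF.2 (zero_mem _)⟩)
  have h1 : ((B.wB * (B.Om x (2 * m + 2) a).card : ℕ) : ℝ) ≤ _ :=
    Nat.cast_le.2 (om_le h hx h0 (by omega) a)
  have h2 := congrArg Complex.re (four_RF h hx (l := 2 * m + 2) (by omega) a)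
  rw [Complex.natCast_re, ← sum_filter_add_sum_filter_not _
    (fun b => b ∈ B.Rad x ∧ a ∈ B.Rad x ∧ b ∉ B.L2 a), Complex.add_re] at h2
  have h3 : ((B.RF x (2 * m + 2) a).card : ℝ) ≤
      ((B.wB * (3 * (B.VF x).card) * (B.Om x (2 * m) a).card : ℕ) : ℝ) :=
    Nat.cast_le.2 (card_RF h hx (by omega) a)
  have h4 : (∑ b ∈ B.VF x with ¬ (b ∈ B.Rad x ∧ a ∈ B.Rad x ∧ b ∉ B.L2 a),
      ∑ c ∈ B.RF x (2 * m + 2) a, ee (B.Dx x c b)).re ≤
      9 * ((B.RF x (2 * m + 2) a).card : ℝ) := by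
    rw [Complex.re_sum]
    calc _ ≤ ∑ b ∈ B.VF x with ¬ (b ∈ B.Rad x ∧ a ∈ B.Rad x ∧ b ∉ B.L2 a),
          if b ∈ B.L2 a then ((B.RF x (2 * m + 2) a).card : ℝ) else 0 := by
          refine sum_le_sum fun b hb => ?_
          obtain ⟨b1, b2⟩ := mem_filter.1 hb
          split_ifs with e
          · refine (Complex.re_le_norm _).trans ((norm_sum_le _ _).trans ?_)
            simp only [AddChar.norm_apply, sum_const, nsmul_eq_mul, mul_one, le_refl]
          by_cases e1 : b ∈ B.Rad x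
          · rw [sum_eq_zero fun c hc => absurd ⟨e1, rad_of_RF h hx hm hc, e⟩ b2, Complex.zero_re]
          · rw [sum_RF_zero h hx (by omega) a (mem_VF.1 b1) e1, Complex.zero_re]
      _ ≤ ∑ b, if b ∈ B.L2 a then ((B.RF x (2 * m + 2) a).card : ℝ) else 0 :=
          sum_le_sum_of_subset_of_nonneg (subset_univ _) fun b _ _ => by positivity
      _ ≤ _ := by
          rw [← sum_filter, sum_const, nsmul_eq_mul]
          exact mul_le_mul_of_nonneg_right (by exact_mod_cast card_L2 a) (Nat.cast_nonneg _)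
  push_cast at h1 h2 h3
  rw [← sub_le_iff_le_add', le_div_iff₀ (mul_pos hW hv)]
  nlinarith [mul_le_mul_of_nonneg_right h1 hv.le]

theorem sdb_om (h : B.Wf) (hx : x ∈ B.pts) (k : kC (B.kA x a) ∈ AA (B.nn x) (m + 1)) :
    Nat.card (Zs (B.nn x) 0 (2 * m + 1)) ≤ (B.Om x (2 * m + 2) a).card := by
  obtain ⟨c, c1, c2⟩ := k
  rw [← Nat.card_eq_finsetCard]
  refine Nat.card_le_card_of_injective (fun z => ⟨c + z.1, (mem_Om h hx).2 ⟨add_mem c1
    ⟨z.2.coc, fun g => by rw [pow_succ', mul_smul, z.2.kil, smul_zero], z.2.loc, z.2.unr⟩, ?_⟩⟩)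
    fun z z' e => Subtype.ext (add_left_cancel (congrArg Subtype.val e))
  have e : th ^ (2 * m + 1) • z.1 = 0 := funext z.2.kil
  rw [smul_add, show 2 * m + 2 - 1 = 2 * m + 1 from rfl, e, add_zero]
  exact c2

theorem sdb_card (h : B.Wf) (hx : x ∈ B.pts) (hm : 1 ≤ m) : Nat.card (AA (B.nn x) m) ≤
    ((B.VF x).filter fun a => kC (B.kA x a) ∈ AA (B.nn x) m).card * 3 := by
  have e : ∀ j : F3, kC (fun g => j * (chi g - 1)) ∈ AA (B.nn x) m := fun j => by
    have := nsmul_mem (chi_mem_AA (B.nn x) hm) j.val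
    convert this using 1
    funext g
    rw [Pi.smul_apply, ← map_nsmul, nsmul_eq_mul, ZMod.natCast_zmod_val]
  refine (Nat.card_le_card_of_surjective
    (fun p : ((B.VF x).filter fun a => kC (B.kA x a) ∈ AA (B.nn x) m) × F3 =>
      (⟨kC (B.kA x p.1) + kC fun g => p.2 * (chi g - 1),
      add_mem (mem_filter.1 p.1.2).2 (e p.2)⟩ : AA (B.nn x) m)) fun c => ?_).trans_eq
    (by rw [Nat.card_prod, Nat.card_eq_finsetCard, Nat.card_zmod])
  obtain ⟨a, ha, j, k⟩ := exists_pat h hx (AA_le _ _ hm c.2)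
  refine ⟨(⟨a, mem_filter.2 ⟨mem_VF.2 ha, ?_⟩⟩, j), Subtype.ext k.symm⟩
  rw [← sub_eq_iff_eq_add.2 k]
  exact sub_mem c.2 (e j)

theorem wt_big (h : B.Wf) (hx : x ∈ B.pts) (k : Big (B.nn x) (m + 1)) :
    24 * 81 ^ m ≤ B.wt x (2 * m + 2) := by
  have h1 := (k.le (h.nn_ne hx) (by omega)).trans (sdb_card h hx (by omega))
  set F := (B.VF x).filter fun a => kC (B.kA x a) ∈ AA (B.nn x) (m + 1) with hF
  have h2 : (F.filter (· ∈ B.L1)).card ≤ 3 :=
    (card_le_card (filter_subset_filter _ (subset_univ _))).trans card_L1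
  have h3 := card_filter_add_card_filter_not (s := F) (· ∈ B.L1)
  calc 24 * 81 ^ m ≤ (F.filter (· ∉ B.L1)).card * 81 ^ m := Nat.mul_le_mul_right _ (by omega)
    _ ≤ ∑ a ∈ F with a ∉ B.L1, (B.Om x (2 * m + 2) a).card :=
      card_nsmul_le_sum _ _ _ fun a ha => (k.card (h.nn_ne hx)).trans
        (sdb_om h hx (mem_filter.1 (mem_filter.1 ha).1).2)
    _ ≤ _ := sum_le_sum_of_subset (filter_subset_filter _ (filter_subset _ _))

end Bx

end Pool.Agent.Lib.MP_696deb_nt.CU.Cw
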