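import Pool.Agent.Lib.MP_696deb_nt.CW.S0
import Pool.Agent.Lib.MP_696deb_nt.CU.E2

/-! Patterns and their Kummer cocycles. -/

set_option autoImplicit false

open scoped Classical
open Finset

namespace Pool.Agent.Lib.MP_696deb_nt.CU.Cw

namespace Bx

variable {B : Bx} {x x' : B.Pt} {a b : B.Pat} {S y : Finset (Fin B.r)}

theorem mem_pts : x ∈ B.pts ↔ ∀ j, x j ∈ B.X j := Fintype.mem_piFinset

theorem kA_apply (x : B.Pt) (a : B.Pat) (g : Gam) :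
    B.kA x a g = ∑ q : B.S0, a.1 q * kk q g + ∑ j, a.2 j * kk (x j) g := by
  show (∑ q : B.S0, a.1 q • kk q + ∑ j, a.2 j • kk (x j)) g = _
  simp only [Pi.add_apply, Finset.sum_apply, Pi.smul_apply, smul_eq_mul]

theorem three_mem (h : B.Wf) : 3 ∈ B.S0 := by
  exact Nat.mem_primeFactors.2 ⟨Nat.prime_three, dvd_mul_right _ _, mul_ne_zero three_ne_zero h.n0⟩

theorem Wf.inj (h : B.Wf) (hx : x ∈ B.pts) : Function.Injective x := by
  exact fun i j e => h.disj i j (x i) (mem_pts.1 hx i) (e ▸ mem_pts.1 hx j)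

theorem Wf.ne_three (h : B.Wf) (hx : x ∈ B.pts) (j : Fin B.r) : x j ≠ 3 := by
  exact fun e => h.cop j _ (mem_pts.1 hx j) (e.dvd.mul_right _)

theorem Wf.notMem (h : B.Wf) (hx : x ∈ B.pts) (j : Fin B.r) : x j ∉ B.S0 := by
  exact fun k => h.cop j _ (mem_pts.1 hx j) (Nat.dvd_of_mem_primeFactors k)

theorem Wf.nn_ne (h : B.Wf) (hx : x ∈ B.pts) : B.nn x ≠ 0 := by
  exact pow_ne_zero 2
    (mul_ne_zero h.n0 (prod_ne_zero_iff.2 fun j _ => (h.prime j _ (mem_pts.1 hx j)).ne_zero))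

theorem Wf.dvd_iff (h : B.Wf) (hx : x ∈ B.pts) {q : ℕ} (hq : q.Prime) :
    q ∣ 3 * B.nn x ↔ q ∈ B.S0 ∨ ∃ j, x j = q := by
  rw [nn, dvd_sq hq, n1, ← mul_assoc, hq.dvd_mul, hq.prime.dvd_finsetProd_iff, S0, Nat.mem_primeFactors]
  refine or_congr ⟨fun k => ⟨hq, k, mul_ne_zero three_ne_zero h.n0⟩, fun k => k.2.1⟩
    (exists_congr fun j => ?_)
  rw [Nat.prime_dvd_prime_iff_eq hq (h.prime j _ (mem_pts.1 hx j)), eq_comm]
  simp

theorem Wf.sum_pf (h : B.Wf) (hx : x ∈ B.pts) {M : Type} [AddCommMonoid M] (f : ℕ → M) :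
    ∑ q ∈ (3 * B.nn x).primeFactors, f q = ∑ q ∈ B.S0, f q + ∑ j, f (x j) := by
  have e : (3 * B.nn x).primeFactors = B.S0 ∪ univ.image x := by
    ext q
    rw [mem_union, mem_image, Nat.mem_primeFactors]
    refine ⟨fun k => by simpa using (h.dvd_iff hx k.1).1 k.2.1, fun k => ?_⟩
    have hq : q.Prime := k.elim Nat.prime_of_mem_primeFactors
      fun ⟨j, _, e⟩ => e ▸ h.prime j _ (mem_pts.1 hx j)
    exact ⟨hq, (h.dvd_iff hx hq).2 (by simpa using k), mul_ne_zero three_ne_zero (h.nn_ne hx)⟩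
  rw [e, sum_union, sum_image fun i _ j _ k => h.inj hx k]
  refine disjoint_right.2 fun q hq => ?_
  obtain ⟨j, -, rfl⟩ := mem_image.1 hq
  exact h.notMem hx j

theorem pw_mem (hx : x ∈ B.pts) (hx' : x' ∈ B.pts) (y : Finset (Fin B.r)) :
    y.piecewise x' x ∈ B.pts := by
  refine mem_pts.2 fun j => ?_
  by_cases k : j ∈ y
  · rw [piecewise_eq_of_mem _ _ _ k]
    exact mem_pts.1 hx' j
  · rw [piecewise_eq_of_notMem _ _ _ k]
    exact mem_pts.1 hx j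

theorem update_mem (hx : x ∈ B.pts) {j : Fin B.r} {p : ℕ} (hp : p ∈ B.X j) :
    Function.update x j p ∈ B.pts := by
  refine mem_pts.2 fun i => ?_
  rcases eq_or_ne i j with rfl | k
  · rwa [Function.update_self]
  · rw [Function.update_of_ne k]
    exact mem_pts.1 hx i

theorem pw_pw (y z : Finset (Fin B.r)) (x x' : B.Pt) :
    z.piecewise x' (y.piecewise x' x) = (y ∪ z).piecewise x' x := by
  funext i
  by_cases hy : i ∈ y <;> by_cases hz : i ∈ z <;> simp [piecewise, hy, hz]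

theorem Cb.face (h : B.Cb S x x') {T : Finset (Fin B.r)} (hT : T ⊆ S) (hy : Disjoint y T) :
    B.Cb T (y.piecewise x' x) x' := by
  refine ⟨h.wf, pw_mem h.mem h.mem' y, h.mem', fun i hi => ?_⟩
  rw [piecewise_eq_of_notMem _ _ _ (disjoint_right.1 hy hi)]
  exact h.ne i (hT hi)

theorem kc_kA (h : B.Wf) (hx : x ∈ B.pts) (a : B.Pat) : Kc 1 ⊤ (B.kA x a) := by
  exact ((Kc.sum univ fun (q : B.S0) _ => (kc_kk q ⊤).smul (a.1 q)).add
    (Kc.sum univ fun j _ => (kc_kk (x j) ⊤).smul (a.2 j))).congr fun g _ => (kA_apply x a g).symm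

theorem kA_val (h : B.Wf) (hx : x ∈ B.pts) (a : B.Pat) : B.kA x a = kk (B.val x a) := by
  funext g
  have h1 : ∀ q ∈ (univ : Finset B.S0), (q : ℕ) ^ (a.1 q).val ≠ 0 :=
    fun q _ => pow_ne_zero _ (Nat.prime_of_mem_primeFactors q.2).ne_zero
  have h2 : ∀ j ∈ (univ : Finset (Fin B.r)), x j ^ (a.2 j).val ≠ 0 :=
    fun j _ => pow_ne_zero _ (h.prime j _ (mem_pts.1 hx j)).ne_zero
  rw [kA_apply, val, kk_mul (prod_ne_zero_iff.2 h1) (prod_ne_zero_iff.2 h2), kk_prod _ h1,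
    kk_prod _ h2]
  simp only [kk_pow, ZMod.natCast_zmod_val]

theorem kA_tau (h : B.Wf) (hx : x ∈ B.pts) : B.kA x B.tau = kk (B.n1 x) := by
  funext g
  have h2 : ∀ j ∈ (univ : Finset (Fin B.r)), x j ≠ 0 :=
    fun j _ => (h.prime j _ (mem_pts.1 hx j)).ne_zero
  rw [kA_apply, n1, kk_mul h.n0 (prod_ne_zero_iff.2 h2), kk_prod _ h2, kk_fac h.n0]
  simp only [tau, Pi.one_apply, one_mul]
  rw [sum_coe_sort B.S0 fun q => (B.N0.factorization q : F3) * kk q g]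
  congr 1
  refine (sum_subset (Nat.primeFactors_mono (dvd_mul_left _ _) (mul_ne_zero three_ne_zero h.n0))
    fun q _ k => ?_).symm
  rw [Finsupp.notMem_support_iff.1 (by rwa [Nat.support_factorization]), Nat.cast_zero, zero_mul]

theorem SA_sq {p q : ℕ} (hq : q.Prime) (h3 : q ≠ 3) (hp : p.Prime) (k : q ≠ p) :
    kk p (sq q) = 0 :=
  kk_ine hq h3 (fun e => k ((Nat.prime_dvd_prime_iff_eq hq hp).1 e)) (sq_ine hq h3)

theorem kA_sq (h : B.Wf) (hx : x ∈ B.pts) (a : B.Pat) (j : Fin B.r) :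
    B.kA x a (sq (x j)) = a.2 j := by
  have hp := h.prime j _ (mem_pts.1 hx j)
  have h3 := h.ne_three hx j
  rw [kA_apply, sum_eq_zero fun q _ => ?_, zero_add, sum_eq_single j (fun i _ k => ?_) (by simp),
    kk_sq_self hp h3, mul_one]
  · rw [SA_sq hp h3 (h.prime i _ (mem_pts.1 hx i)) fun e => k (h.inj hx e).symm, mul_zero]
  · rw [SA_sq hp h3 (Nat.prime_of_mem_primeFactors q.2) fun e => h.notMem hx j (e ▸ q.2), mul_zero]

theorem kA_unr (h : B.Wf) (hx : x ∈ B.pts) (a : B.Pat) {q : ℕ} (hq : q.Prime)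
    (k : ¬ q ∣ 3 * B.nn x) : B.kA x a (sq q) = 0 := by
  have h3 : q ≠ 3 := fun e => k (e.dvd.mul_right _)
  rw [h.dvd_iff hx hq, not_or, not_exists] at k
  rw [kA_apply, sum_eq_zero fun p _ => ?_, sum_eq_zero fun j _ => ?_, add_zero]
  · rw [SA_sq hq h3 (h.prime j _ (mem_pts.1 hx j)) (Ne.symm (k.2 j)), mul_zero]
  · rw [SA_sq hq h3 (Nat.prime_of_mem_primeFactors p.2) fun e => k.1 (e ▸ p.2), mul_zero]

theorem kA_pw (x x' : B.Pt) (y : Finset (Fin B.r)) (a : B.Pat) :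
    B.kA (y.piecewise x' x) a = B.kA x a + ∑ i ∈ y, a.2 i • (kk (x' i) - kk (x i)) := by
  funext g
  simp only [kA_apply, Pi.add_apply, Finset.sum_apply, Pi.smul_apply, Pi.sub_apply, smul_eq_mul]
  rw [add_assoc, ← univ_inter y, ← sum_ite_mem, ← sum_add_distrib, univ_inter]
  congr 1
  refine sum_congr rfl fun i _ => ?_
  by_cases k : i ∈ y
  · rw [piecewise_eq_of_mem _ _ _ k, if_pos k]
    ring
  · rw [piecewise_eq_of_notMem _ _ _ k, if_neg k, add_zero]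

theorem kA_neg_tau (h : B.Wf) (hx : x ∈ B.pts) : B.kA x (-B.tau) = kk (B.nn x) := by
  rw [map_neg, kA_tau h hx]
  exact funext fun g => (kk_two _ g).symm

theorem mem_V : a ∈ B.V x ↔ kC (B.kA x a) ∈ Zs (B.nn x) 1 1 := Iff.rfl

theorem mem_VF : a ∈ B.VF x ↔ a ∈ B.V x := by simp [VF]

theorem mem_L1 : a ∈ B.L1 ↔ ∃ s : F3, a = s • B.tau := by
  rw [L1, AddSubgroup.mem_zmultiples_iff]
  refine ⟨fun ⟨k, e⟩ => ⟨k, by rw [Int.cast_smul_eq_zsmul, e]⟩, fun ⟨s, e⟩ => ?_⟩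
  obtain ⟨k, rfl⟩ := ZMod.intCast_surjective s
  exact ⟨k, by rw [e, Int.cast_smul_eq_zsmul]⟩

theorem mem_L2 : b ∈ B.L2 a ↔ ∃ s t : F3, b = s • a + t • B.tau := by
  rw [L2, AddSubgroup.mem_closure_pair]
  refine ⟨fun ⟨k, l, e⟩ => ⟨k, l, by rw [Int.cast_smul_eq_zsmul, Int.cast_smul_eq_zsmul, e]⟩,
    fun ⟨s, t, e⟩ => ?_⟩
  obtain ⟨k, rfl⟩ := ZMod.intCast_surjective s
  obtain ⟨l, rfl⟩ := ZMod.intCast_surjective t
  exact ⟨k, l, by rw [e, Int.cast_smul_eq_zsmul, Int.cast_smul_eq_zsmul]⟩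

theorem card_L1 : (univ.filter (· ∈ B.L1)).card ≤ 3 := by
  refine (card_le_card (t := univ.image fun s : F3 => s • B.tau) fun a ha => ?_).trans
    (card_image_le.trans (by simp))
  obtain ⟨s, rfl⟩ := mem_L1.1 (mem_filter.1 ha).2
  exact mem_image_of_mem _ (mem_univ s)

theorem card_L2 (a : B.Pat) : (univ.filter (· ∈ B.L2 a)).card ≤ 9 := by
  refine (card_le_card (t := univ.image fun s : F3 × F3 => s.1 • a + s.2 • B.tau)
    fun b hb => ?_).trans (card_image_le.trans (by simp))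
  obtain ⟨s, t, rfl⟩ := mem_L2.1 (mem_filter.1 hb).2
  exact mem_image_of_mem (fun s : F3 × F3 => s.1 • a + s.2 • B.tau) (mem_univ (s, t))

theorem smul_mem_V (h : a ∈ B.V x) (s : F3) : s • a ∈ B.V x := by
  obtain ⟨k, rfl⟩ := ZMod.intCast_surjective s
  rw [Int.cast_smul_eq_zsmul]
  exact zsmul_mem h k

theorem card_Pat : Fintype.card B.Pat = 3 ^ (B.k0 + B.r) := by
  simp [k0, pow_add]

/-- Powers of a constant are bounded by powers of `Z`. -/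
theorem pow_le_Z (K : ℕ) : ∃ E : ℕ, ∀ B : Bx, 0 < B.θ → B.θ ≤ 1 →
    (K : ℝ) ^ ((B.r + B.k0 + 1) ^ 2) ≤ B.Z ^ E := by
  refine ⟨K, fun B h k => ?_⟩
  have h1 : (K : ℝ) ≤ 2 ^ K := by exact_mod_cast Nat.lt_two_pow_self.le
  calc (K : ℝ) ^ ((B.r + B.k0 + 1) ^ 2) ≤ (2 ^ K) ^ ((B.r + B.k0 + 1) ^ 2) :=
        pow_le_pow_left₀ (Nat.cast_nonneg K) h1 _
    _ = (2 ^ ((B.r + B.k0 + 1) ^ 2)) ^ K := pow_right_comm _ _ _
    _ ≤ _ := pow_le_pow_left₀ (by positivity) (le_div_self (by positivity) h k) _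

theorem Hyp.SA_one {c : ℕ} (h : B.Hyp c) : 1 ≤ B.θ * B.Z := by
  have := h.inv_le
  rwa [div_le_iff₀' h.pos] at this

theorem Hyp.rng' {c : ℕ} (h : B.Hyp c) (j : Fin B.r) : Rng B.Z c 1 (B.t j) (B.X j) := by
  have h1 : (1 : ℝ) ≤ B.Z := one_le_two.trans h.two_le
  have h2 : B.Z ^ c ≤ B.t j := h.hc.trans (Nat.cast_le.2 (h.hY j))
  refine ⟨fun p hp => ⟨h.wf.prime j p hp, h.rng j p hp⟩, le_trans ?_ (h.big j),
    (h.lg j).trans h.inv_le, h2, ?_⟩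
  · rw [div_le_iff₀ (one_pos.trans_le h1), mul_right_comm]
    exact le_mul_of_one_le_left (Nat.cast_nonneg _) h.SA_one
  · rw [one_pow]
    exact_mod_cast (one_le_pow₀ h1).trans h2

theorem Hyp.card_ge {c : ℕ} (h : B.Hyp (c + 1)) (j : Fin B.r) : B.Z ^ c ≤ (B.X j).card := by
  have h1 : (0 : ℝ) ≤ B.Z := zero_le_two.trans h.two_le
  calc B.Z ^ c ≤ B.θ * B.Z * B.Z ^ c := le_mul_of_one_le_left (pow_nonneg h1 c) h.SA_one
    _ = B.θ * B.Z ^ (c + 1) := by ring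
    _ ≤ B.θ * B.t j :=
        mul_le_mul_of_nonneg_left (h.hc.trans (Nat.cast_le.2 (h.hY j))) h.pos.le
    _ ≤ _ := h.big j

end Bx

end Pool.Agent.Lib.MP_696deb_nt.CU.Cw
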